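import Pool.Agent.Q250.NP.Core
import Pool.Agent.Y843.HG.VGold

/-!
# Admissible patterns between consecutive powers
-/

set_option autoImplicit false

namespace Pool.Agent.Q257.PW

open Finset Filter
open Pool.Agent.Q253.Thin (SysZ IS VZ_nonneg VZ_low int_upper)
open Pool.Agent.Y843.HS (VV Pr Pr_prime Pr_mem)
open Pool.Agent.Y843.HG (V1 V1_bounds)
open Pool.Agent.Q250.NP

/-- no prime divides `∏ (x + h i)` for all `x` -/
def Adm {r : ℕ} (h : Fin r → ℕ) : Prop := ∀ p : ℕ, p.Prime → ∃ x : ℕ, ∀ i, ¬ p ∣ x + h i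

/-- the classes modulo `p` where `p` divides one of the `x + h i` -/
def Zh {r : ℕ} (h : Fin r → ℕ) (p : ℕ) : Finset ℕ := (range p).filter (fun x => ∃ i, p ∣ x + h i)

theorem mem_Zh {r : ℕ} (h : Fin r → ℕ) {p : ℕ} (hp : 0 < p) (n : ℕ) : n % p ∈ Zh h p ↔ ∃ i, p ∣ n + h i := by
  unfold Zh
  rw [mem_filter, mem_range]
  have key : ∀ i, (p ∣ n % p + h i ↔ p ∣ n + h i) := fun i =>
    ((Nat.mod_modEq n p).add_right (h i)).dvd_iff (dvd_refl p)
  simp only [key]
  exact and_iff_right (Nat.mod_lt _ hp)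

theorem sys {r : ℕ} {h : Fin r → ℕ} (hh : Adm h) : SysZ r (Zh h) := by
  classical
  constructor
  · intro p hp
    have h1 : Zh h p ⊆ (univ : Finset (Fin r)).biUnion (fun i => (range p).filter (fun n => p ∣ n + h i)) := by
      intro n hn
      unfold Zh at hn
      rw [mem_filter] at hn
      obtain ⟨h1, i, hi⟩ := hn
      rw [mem_biUnion]
      exact ⟨i, mem_univ _, mem_filter.2 ⟨h1, hi⟩⟩
    refine (card_le_card h1).trans (card_biUnion_le.trans ?_)
    calc _ ≤ ∑ _i : Fin r, 1 := by
          apply sum_le_sum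
          intro i _
          rw [card_le_one]
          intro n hn m hm
          rw [mem_filter, mem_range] at hn hm
          have h3 : n + h i ≡ m + h i [MOD p] :=
            ((Nat.modEq_zero_iff_dvd).2 hn.2).trans ((Nat.modEq_zero_iff_dvd).2 hm.2).symm
          exact (Nat.ModEq.add_right_cancel' _ h3).eq_of_lt_of_lt hn.1 hm.1
      _ = r := by simp
  · intro p hp
    obtain ⟨n, hn⟩ := hh p hp
    have h1 : Zh h p ⊂ range p := by
      refine ⟨filter_subset _ _, fun hsub => ?_⟩
      have h2 := hsub (mem_range.2 (Nat.mod_lt n hp.pos))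
      rw [mem_Zh h hp.pos] at h2
      obtain ⟨i, hi⟩ := h2
      exact hn i hi
    have := card_lt_card h1
    rwa [card_range] at this
  · intro p _ c hc
    unfold Zh at hc
    rw [mem_filter, mem_range] at hc
    exact hc.1

/-- the number of the classes for the large primes -/
theorem card_Zh {r : ℕ} {h : Fin r → ℕ} (hinj : Function.Injective h) {p : ℕ} (hp : p.Prime) (hlarge : ∀ i, h i < p) :
    r ≤ (Zh h p).card := by
  classical
  have h1 : (univ : Finset (Fin r)).card ≤ (Zh h p).card := by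
    refine card_le_card_of_injOn (fun i => (p - h i) % p) ?_ ?_
    · intro i _
      have h2 : (p - h i) % p ∈ Zh h p := by
        rw [mem_Zh h hp.pos]
        refine ⟨i, ?_⟩
        rw [Nat.sub_add_cancel (hlarge i).le]
      exact h2
    · intro i _ j _ hij
      have h3 : (p - h i) ≡ (p - h j) [MOD p] := hij
      have h4 : (p - h i) + (h i + h j) ≡ (p - h j) + (h i + h j) [MOD p] := h3.add_right _
      have e1 : (p - h i) + (h i + h j) = p + h j := by have := hlarge i; omega
      have e2 : (p - h j) + (h i + h j) = p + h i := by have := hlarge j; omega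
      rw [e1, e2] at h4
      have h5 : h j ≡ h i [MOD p] := Nat.ModEq.add_left_cancel' p h4
      exact hinj (h5.eq_of_lt_of_lt (hlarge j) (hlarge i)).symm
  simpa using h1

/-- the upper bound of the sieve product -/
theorem VV_up {r : ℕ} {h : Fin r → ℕ} (hh : Adm h) (hinj : Function.Injective h) :
    ∃ C : ℝ, 0 < C ∧ ∀ X : ℕ, 2 ≤ X → VV (Zh h) 0 X ≤ C / Real.log X ^ r := by
  classical
  obtain ⟨c, C, hc, hC, hV⟩ := V1_bounds
  obtain ⟨B, hB⟩ : ∃ B : ℕ, ∀ i, h i < B := ⟨(univ.sup h) + 1, fun i => Nat.lt_succ_of_le (le_sup (mem_univ i))⟩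
  -- each factor
  have hfac : ∀ X : ℕ, VV (Zh h) 0 X ≤ (∏ p ∈ Pr 0 X, (if p < B then (2 : ℝ) ^ r else 1)) * V1 X ^ r := by
    intro X
    unfold VV V1
    rw [← prod_pow, ← prod_mul_distrib]
    apply Finset.prod_le_prod
    · intro p hp
      have hpp := Pr_prime hp
      have hp0 : (0 : ℝ) < p := by exact_mod_cast hpp.pos
      rw [sub_nonneg, div_le_one hp0]
      exact_mod_cast ((sys hh).loc p hpp).le
    · intro p hp
      have hpp := Pr_prime hp
      have hp2 : (2 : ℝ) ≤ p := by exact_mod_cast hpp.two_le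
      have hp0 : (0 : ℝ) < p := by linarith
      have h1 : (1 : ℝ) / p ≤ 1 / 2 := one_div_le_one_div_of_le (by norm_num) hp2
      have h2 : (1 : ℝ) / 2 ≤ 1 - 1 / p := by linarith
      split_ifs with hpB
      · rw [← mul_pow]
        have h3 : (1 : ℝ) ≤ (2 * (1 - 1 / (p : ℝ))) ^ r := one_le_pow₀ (by linarith)
        have h4 : (0 : ℝ) ≤ ((Zh h p).card : ℝ) / p := by positivity
        linarith
      · rw [one_mul]
        have h3 : (r : ℝ) ≤ (Zh h p).card := by
          exact_mod_cast card_Zh hinj hpp (fun i => (hB i).trans_le (not_lt.1 hpB))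
        have h4 : 1 + (r : ℝ) * (-(1 / (p : ℝ))) ≤ (1 + -(1 / (p : ℝ))) ^ r :=
          one_add_mul_le_pow (by linarith) r
        have h5 : (r : ℝ) / p ≤ ((Zh h p).card : ℝ) / p := div_le_div_of_nonneg_right h3 hp0.le
        have h6 : (1 : ℝ) - 1 / p = 1 + -(1 / (p : ℝ)) := by ring
        have h7 : (r : ℝ) * (-(1 / (p : ℝ))) = -((r : ℝ) / p) := by ring
        rw [h6]
        rw [h7] at h4
        linarith
  have hbad : ∀ X : ℕ, (∏ p ∈ Pr 0 X, (if p < B then (2 : ℝ) ^ r else 1)) ≤ ((2 : ℝ) ^ r) ^ B := by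
    intro X
    rw [← prod_filter]
    rw [prod_const]
    apply pow_le_pow_right₀ (one_le_pow₀ (by norm_num))
    calc _ ≤ (range B).card := card_le_card (by
          intro p hp
          rw [mem_filter] at hp
          exact mem_range.2 hp.2)
      _ = B := card_range B
  refine ⟨((2 : ℝ) ^ r) ^ B * C ^ r, by positivity, fun X hX => ?_⟩
  have hl : 0 < Real.log X := Real.log_pos (by exact_mod_cast (by omega : 1 < X))
  have h1 := (hV X hX).2
  have h0 : 0 ≤ V1 X := le_trans (by positivity) (hV X hX).1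
  calc VV (Zh h) 0 X ≤ _ := hfac X
    _ ≤ ((2 : ℝ) ^ r) ^ B * (C / Real.log X) ^ r :=
        mul_le_mul (hbad X) (pow_le_pow_left₀ h0 h1 r) (pow_nonneg h0 r) (by positivity)
    _ = _ := by rw [div_pow]; ring

end Pool.Agent.Q257.PW
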