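import Pool.Agent.Q257.PW.A

/-!
# Admissible patterns between consecutive powers: the general theorem
-/

set_option autoImplicit false

namespace Pool.Agent.Q257.PW

open Finset Filter
open Pool.Agent.Q253.Thin (SysZ IS VZ_nonneg VZ_low int_upper)
open Pool.Agent.Y843.HS (VV Pr Pr_prime Pr_mem)
open Pool.Agent.Q250.NP

/-- the scale of the window between `n ^ (m + 1)` and `(n + 1) ^ (m + 1)` -/
def XX (m n : ℕ) : ℕ := 2 ^ (m + 1) * n ^ m

open Classical in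
/-- the integers `p` such that all the `p + h i` lie between `n ^ (m + 1)` and `(n + 1) ^ (m + 1)` and have only prime factors
larger than `(2 ^ (m + 1) n ^ m) ^ (1/t)` -/
noncomputable def Gd {r : ℕ} (m t n : ℕ) (h : Fin r → ℕ) : Finset ℕ :=
  (Ioo (n ^ (m + 1)) ((n + 1) ^ (m + 1))).filter (fun p => ∀ i, p + h i < (n + 1) ^ (m + 1) ∧
    ∀ q : ℕ, q.Prime → q ∣ p + h i → ((XX m n : ℕ) : ℝ) ^ (1 / (t : ℝ)) < q)

/-- the integers `p` such that all the `p + h i` are primes between `n ^ (m + 1)` and `(n + 1) ^ (m + 1)` -/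
def Pat {r : ℕ} (m n : ℕ) (h : Fin r → ℕ) : Finset ℕ :=
  (Ioo (n ^ (m + 1)) ((n + 1) ^ (m + 1))).filter (fun p => ∀ i, p + h i < (n + 1) ^ (m + 1) ∧ (p + h i).Prime)

theorem pow_up (n : ℕ) (hn : 1 ≤ n) (m : ℕ) : (n + 1) ^ (m + 1) + n ^ m ≤ n ^ (m + 1) + 2 ^ (m + 1) * n ^ m := by
  induction m with
  | zero => simp
  | succ m ih =>
    obtain ⟨a, ha⟩ : ∃ a : ℕ, a = n ^ m := ⟨_, rfl⟩
    obtain ⟨b, hb⟩ : ∃ b : ℕ, b = n ^ (m + 1) := ⟨_, rfl⟩
    obtain ⟨w, hw⟩ : ∃ w : ℕ, w = (n + 1) ^ (m + 1) := ⟨_, rfl⟩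
    obtain ⟨P, hP⟩ : ∃ P : ℕ, P = 2 ^ (m + 1) := ⟨_, rfl⟩
    have h1 : a ≤ b := by rw [ha, hb]; exact Nat.pow_le_pow_right hn (by omega)
    have hP1 : 1 ≤ P := by rw [hP]; exact Nat.one_le_pow _ _ (by norm_num)
    have e1 : b = n * a := by rw [ha, hb, pow_succ, mul_comm]
    have e2 : n ^ (m + 1 + 1) = n * b := by rw [hb, pow_succ, mul_comm]
    have e3 : (n + 1) ^ (m + 1 + 1) = (n + 1) * w := by rw [hw, pow_succ, mul_comm]
    have e4 : (2 : ℕ) ^ (m + 1 + 1) = 2 * P := by rw [hP, pow_succ, mul_comm]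
    rw [← ha, ← hb, ← hw, ← hP] at ih
    rw [e2, e3, e4, ← hb]
    obtain ⟨c, hc⟩ := Nat.exists_eq_add_of_le h1
    have h5 : c ≤ P * c := Nat.le_mul_of_pos_left _ hP1
    have h6 : P * b = P * a + P * c := by rw [hc]; ring
    have h2 : (n + 1) * (w + a) ≤ (n + 1) * (b + P * a) := Nat.mul_le_mul_left _ ih
    have h7 : (n + 1) * (w + a) = (n + 1) * w + b + a := by rw [e1]; ring
    have h8 : (n + 1) * (b + P * a) = n * b + b + P * b + P * a := by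
      have h10 : P * b = n * (P * a) := by rw [e1]; ring
      rw [h10]; ring
    have h9 : 2 * P * b = P * b + P * b := by ring
    rw [h7, h8] at h2
    rw [h9]
    omega

theorem pow_low (n m : ℕ) : n ^ (m + 1) + (m + 1) * n ^ m ≤ (n + 1) ^ (m + 1) := by
  induction m with
  | zero => simp
  | succ m ih =>
    have e1 : n ^ (m + 1) = n * n ^ m := by rw [pow_succ, mul_comm]
    have e2 : n ^ (m + 1 + 1) = n * n ^ (m + 1) := by rw [pow_succ, mul_comm]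
    have e3 : (n + 1) ^ (m + 1 + 1) = (n + 1) * (n + 1) ^ (m + 1) := by rw [pow_succ, mul_comm]
    have h2 : (n + 1) * (n ^ (m + 1) + (m + 1) * n ^ m) ≤ (n + 1) * (n + 1) ^ (m + 1) := Nat.mul_le_mul_left _ ih
    have h4 : (n + 1) * (n ^ (m + 1) + (m + 1) * n ^ m) = n * n ^ (m + 1) + (m + 1 + 1) * n ^ (m + 1) + (m + 1) * n ^ m := by
      rw [e1]; ring
    rw [e3, e2]
    omega

/-- the end of the window -/
def vv {r : ℕ} (m n : ℕ) (h : Fin r → ℕ) : ℕ := (n + 1) ^ (m + 1) - 1 - univ.sup h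

theorem Gd_eq {r : ℕ} (hr : 1 ≤ r) (m t n : ℕ) (h : Fin r → ℕ) :
    Gd m t n h = IS t (XX m n) (n ^ (m + 1)) (vv m n h) (Zh h) := by
  classical
  have h0 : (univ : Finset (Fin r)).Nonempty := ⟨⟨0, hr⟩, mem_univ _⟩
  obtain ⟨i₀, _, hi₀⟩ := exists_mem_eq_sup (univ : Finset (Fin r)) h0 h
  ext p
  unfold Gd IS vv
  rw [mem_filter, mem_filter, mem_Ioo, mem_Ioc]
  have hle : ∀ i, h i ≤ univ.sup h := fun i => le_sup (mem_univ i)
  have key : (∀ i, ∀ q : ℕ, q.Prime → q ∣ p + h i → ((XX m n : ℕ) : ℝ) ^ (1 / (t : ℝ)) < q) ↔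
      ∀ q : ℕ, q.Prime → (q : ℝ) ≤ ((XX m n : ℕ) : ℝ) ^ (1 / (t : ℝ)) → p % q ∉ Zh h q := by
    constructor
    · intro h1 q hq hqX hmem
      rw [mem_Zh h hq.pos] at hmem
      obtain ⟨i, hi⟩ := hmem
      exact absurd (h1 i q hq hi) (not_lt.2 hqX)
    · intro h1 i q hq hqd
      by_contra hcon
      push Not at hcon
      exact h1 q hq hcon ((mem_Zh h hq.pos p).2 ⟨i, hqd⟩)
  rw [← key]
  constructor
  · rintro ⟨⟨h1, h2⟩, h3⟩
    have h4 := (h3 i₀).1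
    rw [← hi₀] at h4
    exact ⟨⟨h1, by omega⟩, fun i => (h3 i).2⟩
  · rintro ⟨⟨h1, h2⟩, h3⟩
    exact ⟨⟨h1, by omega⟩, fun i => ⟨by have := hle i; omega, h3 i⟩⟩

theorem window {r : ℕ} {m n : ℕ} (hm : 1 ≤ m) (h : Fin r → ℕ) (hn : univ.sup h + 1 ≤ n) :
    vv m n h ≤ n ^ (m + 1) + XX m n ∧ (1 / 2 ^ (m + 1) : ℝ) * ((XX m n : ℕ) : ℝ) ≤ (vv m n h : ℝ) - ((n ^ (m + 1) : ℕ) : ℝ) := by
  have hn1 : 1 ≤ n := by omega
  have h1 := pow_up n hn1 m
  have h2 := pow_low n m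
  have h3 : n ≤ n ^ m := Nat.le_self_pow (by omega) n
  have h4 : 2 * n ^ m ≤ (m + 1) * n ^ m := Nat.mul_le_mul_right _ (by omega)
  unfold vv XX
  refine ⟨by omega, ?_⟩
  have e1 : (1 / 2 ^ (m + 1) : ℝ) * ((2 ^ (m + 1) * n ^ m : ℕ) : ℝ) = ((n ^ m : ℕ) : ℝ) := by
    push_cast
    field_simp
  rw [e1]
  have h5 : n ^ m + n ^ (m + 1) ≤ (n + 1) ^ (m + 1) - 1 - univ.sup h := by omega
  have h6 : ((n ^ m : ℕ) : ℝ) + ((n ^ (m + 1) : ℕ) : ℝ) ≤ (((n + 1) ^ (m + 1) - 1 - univ.sup h : ℕ) : ℝ) := by exact_mod_cast h5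
  linarith

theorem log_bounds {m n : ℕ} (hm : 1 ≤ m) (hn : 2 ≤ n) :
    Real.log n ≤ Real.log (XX m n) ∧ Real.log (XX m n) ≤ (2 * (m + 1) : ℝ) * Real.log n := by
  have hnr : (2 : ℝ) ≤ n := by exact_mod_cast hn
  have h3 : n ≤ n ^ m := Nat.le_self_pow (by omega) n
  constructor
  · apply Real.log_le_log (by linarith)
    have h1 : n ≤ XX m n := by
      unfold XX
      calc n ≤ 1 * n ^ m := by omega
        _ ≤ 2 ^ (m + 1) * n ^ m := Nat.mul_le_mul_right _ (Nat.one_le_pow _ _ (by norm_num))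
    exact_mod_cast h1
  · have h1 : XX m n ≤ n ^ (2 * (m + 1)) := by
      unfold XX
      calc 2 ^ (m + 1) * n ^ m ≤ n ^ (m + 1) * n ^ (m + 1) :=
            Nat.mul_le_mul (Nat.pow_le_pow_left hn _) (Nat.pow_le_pow_right (by omega) (by omega))
        _ = n ^ (2 * (m + 1)) := by rw [← pow_add]; congr 1; ring
    have h0 : (0 : ℝ) < (XX m n : ℕ) := by
      have : 0 < XX m n := by unfold XX; positivity
      exact_mod_cast this
    calc Real.log (XX m n) ≤ Real.log ((n : ℝ) ^ (2 * (m + 1))) :=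
          Real.log_le_log h0 (by exact_mod_cast h1)
      _ = (2 * (m + 1) : ℝ) * Real.log n := by rw [Real.log_pow]; push_cast; ring

theorem XX_ge {m n : ℕ} (hm : 1 ≤ m) : n ≤ XX m n := by
  have h3 : n ≤ n ^ m := Nat.le_self_pow (by omega) n
  unfold XX
  calc n ≤ 1 * n ^ m := by omega
    _ ≤ 2 ^ (m + 1) * n ^ m := Nat.mul_le_mul_right _ (Nat.one_le_pow _ _ (by norm_num))

theorem root_le {t X : ℕ} (ht : 1 ≤ t) (hX : 1 ≤ X) : (X : ℝ) ^ (1 / (t : ℝ)) ≤ X := by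
  have hXr : (1 : ℝ) ≤ X := by exact_mod_cast hX
  have htr : (1 : ℝ) ≤ t := by exact_mod_cast ht
  calc (X : ℝ) ^ (1 / (t : ℝ)) ≤ (X : ℝ) ^ (1 : ℝ) := by
        apply Real.rpow_le_rpow_of_exponent_le hXr
        rw [div_le_one (by linarith)]
        exact htr
    _ = X := Real.rpow_one _

theorem Pat_sub {r : ℕ} {m t n : ℕ} (ht : 1 ≤ t) (hn : 2 ^ (m + 1) ≤ n) (h : Fin r → ℕ) : Pat m n h ⊆ Gd m t n h := by
  classical
  intro p hp
  unfold Pat at hp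
  unfold Gd
  rw [mem_filter, mem_Ioo] at hp ⊢
  refine ⟨hp.1, fun i => ⟨(hp.2 i).1, fun q hq hqd => ?_⟩⟩
  have h1 : q = p + h i := (Nat.prime_dvd_prime_iff_eq hq (hp.2 i).2).1 hqd
  have hn1 : 1 ≤ n := le_trans (Nat.one_le_pow _ _ (by norm_num)) hn
  have hX1 : 1 ≤ XX m n := by
    unfold XX
    exact Nat.mul_pos (by positivity) (Nat.pow_pos hn1)
  have h2 : XX m n ≤ n ^ (m + 1) := by
    unfold XX
    calc 2 ^ (m + 1) * n ^ m ≤ n * n ^ m := Nat.mul_le_mul_right _ hn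
      _ = n ^ (m + 1) := by rw [pow_succ, mul_comm]
  have h3 : XX m n < q := by have := hp.1.1; omega
  calc ((XX m n : ℕ) : ℝ) ^ (1 / (t : ℝ)) ≤ (XX m n : ℕ) := root_le ht hX1
    _ < q := by exact_mod_cast h3

theorem size_le {m n : ℕ} (hm : 1 ≤ m) (hn : 1 ≤ n) : (n + 1) ^ (m + 1) ≤ XX m n ^ 2 := by
  unfold XX
  calc (n + 1) ^ (m + 1) ≤ (2 * n) ^ (m + 1) := Nat.pow_le_pow_left (by omega) _
    _ = 2 ^ (m + 1) * n ^ (m + 1) := by rw [mul_pow]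
    _ ≤ 2 ^ (2 * (m + 1)) * n ^ (2 * m) :=
        Nat.mul_le_mul (Nat.pow_le_pow_right (by norm_num) (by omega)) (Nat.pow_le_pow_right hn (by omega))
    _ = (2 ^ (m + 1) * n ^ m) ^ 2 := by rw [mul_pow, ← pow_mul, ← pow_mul]; congr 2 <;> ring

/-- **Patterns between consecutive powers.** The exponent is `m + 1 ≥ 2`. -/
theorem main (r : ℕ) (hr : 1 ≤ r) : ∃ t : ℕ, 1 ≤ t ∧ ∀ m : ℕ, 1 ≤ m → ∀ h : Fin r → ℕ, Function.Injective h → Adm h →
    (∃ c C : ℝ, 0 < c ∧ 0 < C ∧ ∃ N : ℕ, ∀ n : ℕ, N ≤ n →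
      c * ((n : ℝ) ^ m / Real.log n ^ r) ≤ ((Gd m t n h).card : ℝ) ∧
      ((Gd m t n h).card : ℝ) ≤ C * ((n : ℝ) ^ m / Real.log n ^ r) ∧ Pat m n h ⊆ Gd m t n h) ∧
    (∀ (L : ℕ) (δ : ℝ), 0 < δ → ∃ D N : ℕ, ∀ n : ℕ, N ≤ n → ∀ S ⊆ Gd m t n h,
      δ * ((n : ℝ) ^ m / Real.log n ^ r) ≤ S.card →
        ∃ p d : ℕ, 1 ≤ d ∧ (d : ℝ) ≤ Real.log n ^ D ∧ ∀ j < L, p + j * d ∈ S) ∧
    (∀ L q : ℕ, 1 ≤ q → ∃ D N : ℕ, ∀ n : ℕ, N ≤ n → ∀ col : ℕ → Fin q,
      ∃ (s : Fin r → ℕ) (κ : Fin q) (p d : ℕ), (∀ i, 1 ≤ s i ∧ s i ≤ 2 * t) ∧ 1 ≤ d ∧ (d : ℝ) ≤ Real.log n ^ D ∧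
        ∀ j < L, p + j * d ∈ Gd m t n h ∧ col (p + j * d) = κ ∧ ∀ i, (p + j * d + h i).primeFactorsList.length = s i) := by
  classical
  obtain ⟨t, ht, c, hc, h1, h2, h3⟩ := types r hr
  obtain ⟨c', hc', hlow⟩ := VZ_low r hr
  obtain ⟨C, hC, hup⟩ := int_upper r t hr ht
  refine ⟨t, ht, fun m hm h hinj hh => ?_⟩
  obtain ⟨C', hC', hVup⟩ := VV_up hh hinj
  have hθ : (0 : ℝ) < 1 / 2 ^ (m + 1) := by positivity
  -- the counts
  have hcount : ∃ c₁ C₁ : ℝ, 0 < c₁ ∧ 0 < C₁ ∧ ∃ N : ℕ, ∀ n : ℕ, N ≤ n →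
      c₁ * ((n : ℝ) ^ m / Real.log n ^ r) ≤ ((Gd m t n h).card : ℝ) ∧
      ((Gd m t n h).card : ℝ) ≤ C₁ * ((n : ℝ) ^ m / Real.log n ^ r) ∧ Pat m n h ⊆ Gd m t n h := by
    obtain ⟨X₁, hX₁⟩ := h1 _ hθ
    obtain ⟨X₂, hX₂⟩ := hup _ hθ
    obtain ⟨P, hP⟩ : ∃ P : ℕ, P = 2 ^ (m + 1) := ⟨_, rfl⟩
    refine ⟨c * (c' / (2 * (m + 1)) ^ r), C * (C' * 2 ^ (m + 1)), by positivity, by positivity,
      X₁ + X₂ + P + univ.sup h + 2, fun n hn => ?_⟩
    have hn2 : 2 ≤ n := by omega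
    have hXn := XX_ge (n := n) hm
    obtain ⟨w1, w2⟩ := window hm h (n := n) (by omega)
    have hln : 0 < Real.log n := Real.log_pos (by exact_mod_cast (by omega : 1 < n))
    obtain ⟨l1, l2⟩ := log_bounds hm hn2
    have hlX : 0 < Real.log (XX m n) := hln.trans_le l1
    have hnm : (0 : ℝ) < (n : ℝ) ^ m := by positivity
    have hX0 : (1 / 2 ^ (m + 1) : ℝ) * ((XX m n : ℕ) : ℝ) = (n : ℝ) ^ m := by
      unfold XX
      push_cast
      field_simp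
    rw [Gd_eq hr]
    refine ⟨?_, ?_, ?_⟩
    · refine le_trans ?_ (hX₁ (XX m n) (by omega) _ (sys hh) _ _ w2)
      have g1 := hlow (XX m n) (by omega) _ (sys hh)
      have g2 : c' / (2 * (m + 1)) ^ r / Real.log n ^ r ≤ VV (Zh h) 0 (XX m n) := by
        refine le_trans ?_ g1
        rw [div_div, ← mul_pow]
        exact div_le_div_of_nonneg_left hc'.le (by positivity) (pow_le_pow_left₀ hlX.le l2 r)
      calc c * (c' / (2 * (m + 1)) ^ r) * ((n : ℝ) ^ m / Real.log n ^ r) =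
            c * ((n : ℝ) ^ m * (c' / (2 * (m + 1)) ^ r / Real.log n ^ r)) := by ring
        _ ≤ c * (((vv m n h : ℝ) - ((n ^ (m + 1) : ℕ) : ℝ)) * VV (Zh h) 0 (XX m n)) := by
            apply mul_le_mul_of_nonneg_left _ hc.le
            apply mul_le_mul _ g2 (by positivity) (hnm.le.trans (hX0 ▸ w2))
            rw [← hX0]
            exact w2
    · refine (hX₂ (XX m n) (by omega) _ (sys hh) _ _ w2).trans ?_
      have g1 := hVup (XX m n) (by omega)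
      have g0 := VZ_nonneg (sys hh) 0 (XX m n)
      have g2 : VV (Zh h) 0 (XX m n) ≤ C' / Real.log n ^ r :=
        g1.trans (div_le_div_of_nonneg_left hC'.le (by positivity) (pow_le_pow_left₀ hln.le l1 r))
      have g3 : (vv m n h : ℝ) - ((n ^ (m + 1) : ℕ) : ℝ) ≤ 2 ^ (m + 1) * (n : ℝ) ^ m := by
        have : ((vv m n h : ℕ) : ℝ) ≤ ((n ^ (m + 1) + XX m n : ℕ) : ℝ) := by exact_mod_cast w1
        unfold XX at this
        push_cast at this ⊢
        linarith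
      calc C * (((vv m n h : ℝ) - ((n ^ (m + 1) : ℕ) : ℝ)) * VV (Zh h) 0 (XX m n)) ≤
            C * ((2 ^ (m + 1) * (n : ℝ) ^ m) * (C' / Real.log n ^ r)) := by
            apply mul_le_mul_of_nonneg_left _ hC.le
            exact mul_le_mul g3 g2 g0 (by positivity)
        _ = _ := by ring
    · rw [← Gd_eq hr]
      exact Pat_sub ht (by rw [← hP]; omega) h
  refine ⟨hcount, ?_, ?_⟩
  · intro L δ hδ
    obtain ⟨c₁, C₁, hc₁, hC₁, N₁, hN₁⟩ := hcount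
    obtain ⟨D, X₀, hX₀⟩ := h2 L (1 / 2 ^ (m + 1)) (δ / C₁) hθ (by positivity)
    obtain ⟨N₂, hN₂⟩ := exists_nat_ge (Real.exp (2 * (m + 1)))
    refine ⟨2 * D, X₀ + N₁ + N₂ + univ.sup h + 2, fun n hn S hS hSc => ?_⟩
    have hn2 : 2 ≤ n := by omega
    have hXn := XX_ge (n := n) hm
    obtain ⟨w1, w2⟩ := window hm h (n := n) (by omega)
    obtain ⟨l1, l2⟩ := log_bounds hm hn2
    have hln : 0 < Real.log n := Real.log_pos (by exact_mod_cast (by omega : 1 < n))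
    have hle : (2 * (m + 1) : ℝ) ≤ Real.log n := by
      rw [← Real.log_exp (2 * ((m : ℝ) + 1))]
      apply Real.log_le_log (Real.exp_pos _)
      exact hN₂.trans (by exact_mod_cast (by omega : N₂ ≤ n))
    have hup1 := (hN₁ n (by omega)).2.1
    rw [Gd_eq hr] at hS hup1
    obtain ⟨a, d, hd1, hd2, h4⟩ := hX₀ (XX m n) (by omega) _ (sys hh) _ _ w1 w2 S hS (by
      calc δ / C₁ * ((IS t (XX m n) (n ^ (m + 1)) (vv m n h) (Zh h)).card : ℝ) ≤
            δ / C₁ * (C₁ * ((n : ℝ) ^ m / Real.log n ^ r)) := mul_le_mul_of_nonneg_left hup1 (by positivity)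
        _ = δ * ((n : ℝ) ^ m / Real.log n ^ r) := by field_simp
        _ ≤ _ := hSc)
    refine ⟨a, d, hd1, hd2.trans ?_, h4⟩
    rw [pow_mul]
    apply pow_le_pow_left₀ (hln.le.trans l1)
    calc Real.log (XX m n) ≤ (2 * (m + 1) : ℝ) * Real.log n := l2
      _ ≤ Real.log n * Real.log n := mul_le_mul_of_nonneg_right hle hln.le
      _ = Real.log n ^ 2 := by ring
  · intro L q hq
    obtain ⟨K, hK⟩ : ∃ K : Finset ((Fin r → ℕ) × Fin q), K = (Fintype.piFinset (fun _ : Fin r => Icc 1 (2 * t))) ×ˢ univ :=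
      ⟨_, rfl⟩
    have hKne : K.Nonempty := by
      rw [hK]
      refine Finset.Nonempty.product ?_ ⟨⟨0, hq⟩, mem_univ _⟩
      exact ⟨fun _ => 1, Fintype.mem_piFinset.2 fun _ => mem_Icc.2 ⟨le_rfl, by omega⟩⟩
    obtain ⟨D, X₀, hX₀⟩ := h3 L K.card (1 / 2 ^ (m + 1)) hθ
    obtain ⟨N₂, hN₂⟩ := exists_nat_ge (Real.exp (2 * (m + 1)))
    refine ⟨2 * D, X₀ + N₂ + univ.sup h + 2, fun n hn col => ?_⟩
    have hn2 : 2 ≤ n := by omega
    have hXn := XX_ge (n := n) hm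
    obtain ⟨w1, w2⟩ := window hm h (n := n) (by omega)
    obtain ⟨l1, l2⟩ := log_bounds hm hn2
    have hln : 0 < Real.log n := Real.log_pos (by exact_mod_cast (by omega : 1 < n))
    have hle : (2 * (m + 1) : ℝ) ≤ Real.log n := by
      rw [← Real.log_exp (2 * ((m : ℝ) + 1))]
      apply Real.log_le_log (Real.exp_pos _)
      exact hN₂.trans (by exact_mod_cast (by omega : N₂ ≤ n))
    have ht0 : (0 : ℝ) < t := by exact_mod_cast ht
    have hXr : (2 : ℝ) ≤ (XX m n : ℕ) := by exact_mod_cast (by omega : 2 ≤ XX m n)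
    have hz1 : (1 : ℝ) < ((XX m n : ℕ) : ℝ) ^ (1 / (t : ℝ)) := Real.one_lt_rpow (by linarith) (by positivity)
    have hzt : (((XX m n : ℕ) : ℝ) ^ (1 / (t : ℝ))) ^ t = (XX m n : ℕ) := by
      rw [← Real.rpow_natCast, ← Real.rpow_mul (by positivity), one_div_mul_cancel ht0.ne', Real.rpow_one]
    obtain ⟨κ, hκ, a, d, hd1, hd2, h4⟩ := hX₀ (XX m n) (by omega) _ (sys hh) _ _ w1 w2 ((Fin r → ℕ) × Fin q) K
      (fun p => (fun i => (p + h i).primeFactorsList.length, col p)) le_rfl hKne (by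
        intro p hp
        rw [← Gd_eq hr] at hp
        unfold Gd at hp
        rw [mem_filter, mem_Ioo] at hp
        rw [hK, mem_product, Fintype.mem_piFinset]
        refine ⟨fun i => mem_Icc.2 ⟨?_, ?_⟩, mem_univ _⟩
        · change 1 ≤ (p + h i).primeFactorsList.length
          have hn1 : 1 ≤ n ^ (m + 1) := Nat.one_le_pow _ _ (by omega)
          by_contra hcon
          have h5 : (p + h i).primeFactorsList = [] := List.length_eq_zero_iff.1 (by omega)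
          rw [Nat.primeFactorsList_eq_nil] at h5
          have := hp.1.1
          omega
        · change (p + h i).primeFactorsList.length ≤ 2 * t
          rw [mul_comm 2 t]
          apply length_le (by have := hp.1.1; omega) t 2 hz1 (by rw [hzt]) (by linarith) ?_ (hp.2 i).2
          have h6 := (hp.2 i).1
          have h7 := size_le (n := n) hm (by omega)
          exact_mod_cast (h6.le.trans h7))
    rw [hK, mem_product, Fintype.mem_piFinset] at hκ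
    refine ⟨κ.1, κ.2, a, d, fun i => mem_Icc.1 (hκ.1 i), hd1, hd2.trans ?_, fun j hj => ?_⟩
    · rw [pow_mul]
      apply pow_le_pow_left₀ (hln.le.trans l1)
      calc Real.log (XX m n) ≤ (2 * (m + 1) : ℝ) * Real.log n := l2
        _ ≤ Real.log n * Real.log n := mul_le_mul_of_nonneg_right hle hln.le
        _ = Real.log n ^ 2 := by ring
    · obtain ⟨g4, g5⟩ := h4 j hj
      rw [← Gd_eq hr] at g4
      exact ⟨g4, by rw [← g5], fun i => by rw [← g5]⟩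

end Pool.Agent.Q257.PW
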